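import Pool.Agent.Lib.MP_d09955_co.Main

set_option autoImplicit false

open Pool.Agent.Lib.MP_d09955_co

namespace Pool.Agent.Results.MP_d09955_co.Classification

/-- Classification of the intersecting hypergraphs of rank four without isolated vertices that
have domination number three (linear or not). -/
theorem result {V : Type} [Fintype V] [DecidableEq V] (E : Finset (Finset V))
    (hrank : E.sup Finset.card = 4)
    (hint : ∀ e ∈ E, ∀ f ∈ E, (e ∩ f).Nonempty)
    (hcov : ∀ v, ∃ e ∈ E, v ∈ e) :
    domNum E = 3 ↔
      (∃ C : Finset V, C.card ≤ 6 ∧ IsCore E C) ∨ SevenCore E ∨ Exceptional E :=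
  main hrank hint hcov

end Pool.Agent.Results.MP_d09955_co.Classification
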